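import Pool.Agent.W820.BM.Stm

/-!
Project BM, part AP1: if the parameter is large (with bounded centre) then some critical point
escapes very fast.
-/

set_option autoImplicit false

open Topology Filter Metric Set Polynomial
open Pool.Agent.H713R3.ZA

namespace Pool.Agent.W806.BM

theorem poly_eq {p q : ℂ[X]} (h : derivative p = derivative q) {z : ℂ}
    (hz : p.eval z = q.eval z) : p = q := by
  have h1 : derivative (p - q) = 0 := by rw [derivative_sub, h, sub_self]
  have h2 := natDegree_eq_zero_of_derivative_eq_zero h1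
  obtain ⟨c, hc⟩ := natDegree_eq_zero.1 h2
  have h3 : (p - q).eval z = 0 := by rw [eval_sub, hz, sub_self]
  rw [← hc, eval_C] at h3
  rw [h3, C_0] at hc
  exact (sub_eq_zero.1 hc.symm)

/-- scaling of the parameters -/
noncomputable def sc {n : ℕ} (s : ℝ) (y : PE n) : PE n
  | none => (s : ℂ) ^ (n + 1) * y none
  | some i => (s : ℂ) * y (some i)

/-- translation of the parameters -/
noncomputable def tl {n : ℕ} (a β : ℂ) (x : PE n) : PE n
  | none => fx a n x β
  | some i => x (some i) - β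

theorem fam_zero (a : ℂ) (n : ℕ) (x : PE n) : fx a n x 0 = x none := by
  unfold fx
  rw [← coeff_zero_eq_eval_zero, coeff_fam_zero]

theorem fx_sc (a : ℂ) (n : ℕ) (s : ℝ) (y : PE n) (u : ℂ) :
    fx a n (sc s y) ((s : ℂ) * u) = (s : ℂ) ^ (n + 1) * fx a n y u := by
  have h : (fam a n (sc s y)).comp (C (s : ℂ) * X) = C ((s : ℂ) ^ (n + 1)) * fam a n y := by
    apply poly_eq (z := 0)
    · rw [derivative_comp, derivative_fam, derivative_C_mul, derivative_C_mul, derivative_fam,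
        derivative_X]
      unfold dfam
      have h1 : (∏ i : Fin n, (X - C (sc s y (some i)))).comp (C (s : ℂ) * X) =
          C ((s : ℂ) ^ n) * ∏ i : Fin n, (X - C (y (some i))) := by
        rw [prod_comp]
        have h2 : ∀ i : Fin n, (X - C (sc s y (some i))).comp (C (s : ℂ) * X) =
            C (s : ℂ) * (X - C (y (some i))) := by
          intro i
          rw [sub_comp, X_comp, C_comp]
          simp only [sc, C_mul]
          ring
        rw [Finset.prod_congr rfl (fun i _ => h2 i), Finset.prod_mul_distrib, Finset.prod_const,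
          Finset.card_univ, Fintype.card_fin, C_pow]
      rw [mul_comp, C_comp, h1, C_pow, C_pow]
      ring
    · rw [eval_comp, eval_mul, eval_mul, eval_C, eval_C, eval_X, mul_zero]
      have h1 := fam_zero a n (sc s y)
      have h2 := fam_zero a n y
      unfold fx at h1 h2
      rw [h1, h2]
      rfl
  have h1 := congrArg (eval u) h
  rw [eval_comp, eval_mul, eval_mul, eval_C, eval_C, eval_X] at h1
  exact h1

theorem fx_tl (a : ℂ) (n : ℕ) (β : ℂ) (x : PE n) (z : ℂ) :
    fx a n (tl a β x) (z - β) = fx a n x z := by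
  have h : (fam a n (tl a β x)).comp (X - C β) = fam a n x := by
    apply poly_eq (z := β)
    · rw [derivative_comp, derivative_fam, derivative_fam, derivative_sub, derivative_X,
        derivative_C, sub_zero, one_mul]
      unfold dfam
      rw [mul_comp, C_comp, prod_comp]
      congr 1
      refine Finset.prod_congr rfl fun i _ => ?_
      simp only [sub_comp, X_comp, C_comp, tl, C_sub]
      ring
    · rw [eval_comp, eval_sub, eval_X, eval_C, sub_self]
      have h1 := fam_zero a n (tl a β x)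
      unfold fx at h1
      rw [h1]
      rfl
  have h1 := congrArg (eval z) h
  rw [eval_comp, eval_sub, eval_X, eval_C] at h1
  exact h1

/-- if all critical values vanish then the parameter vanishes -/
theorem crit_zero {a : ℂ} (ha : a ≠ 0) {n : ℕ} (hn : 1 ≤ n) (y : PE n)
    (hs : ∑ i : Fin n, y (some i) = 0) (h : ∀ i : Fin n, fx a n y (y (some i)) = 0) : y = 0 := by
  classical
  set T := fam a n y with hT
  have hTd : T.natDegree = n + 1 := natDegree_fam ha n y
  have hT0 : T ≠ 0 := by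
    intro h0
    rw [h0, natDegree_zero] at hTd
    omega
  have hn0 : a * ((n : ℂ) + 1) ≠ 0 := mul_ne_zero ha (Nat.cast_add_one_ne_zero n)
  have hD : derivative T = dfam a n y := derivative_fam a n y
  have hDr : (derivative T).roots = Finset.univ.val.map (fun i : Fin n => y (some i)) := by
    rw [hD]
    unfold dfam
    rw [roots_C_mul _ hn0]
    have := roots_multiset_prod_X_sub_C (Finset.univ.val.map (fun i : Fin n => y (some i)))
    rw [Multiset.map_map] at this
    exact this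
  set S : Finset ℂ := Finset.univ.image (fun i : Fin n => y (some i)) with hS
  have hD0 : derivative T ≠ 0 := by
    rw [hD]
    unfold dfam
    refine mul_ne_zero (by rwa [Ne, C_eq_zero]) ?_
    exact Finset.prod_ne_zero_iff.2 fun i _ => X_sub_C_ne_zero _
  have hle : (derivative T).roots + S.val ≤ T.roots := by
    rw [Multiset.le_iff_count]
    intro r
    rw [Multiset.count_add, count_roots, count_roots]
    by_cases hr : r ∈ S
    · have h1 : Multiset.count r S.val = 1 := Multiset.count_eq_one_of_mem S.nodup hr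
      obtain ⟨i, _, rfl⟩ := Finset.mem_image.1 hr
      have h2 : T.IsRoot (y (some i)) := h i
      have h3 := derivative_rootMultiplicity_of_root h2
      have h4 : 0 < T.rootMultiplicity (y (some i)) := (rootMultiplicity_pos hT0).2 h2
      rw [h1, h3]
      omega
    · have h1 : Multiset.count r S.val = 0 := Multiset.count_eq_zero_of_notMem hr
      have h2 : rootMultiplicity r (derivative T) = 0 := by
        rw [← count_roots, hDr, Multiset.count_eq_zero]
        intro hmem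
        apply hr
        obtain ⟨i, _, hi⟩ := Multiset.mem_map.1 hmem
        exact Finset.mem_image.2 ⟨i, Finset.mem_univ _, hi⟩
      rw [h1, h2]
      exact Nat.zero_le _
  have hcard := Multiset.card_le_card hle
  rw [Multiset.card_add, hDr, Multiset.card_map] at hcard
  have h1 : Multiset.card (Finset.univ.val : Multiset (Fin n)) = n := by simp
  rw [h1] at hcard
  have h2 : Multiset.card T.roots ≤ n + 1 := (card_roots' T).trans (by rw [hTd])
  have h3 : S.card ≤ 1 := by
    have : Multiset.card S.val = S.card := rfl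
    omega
  have h4 : ∀ i j : Fin n, y (some i) = y (some j) := by
    intro i j
    exact Finset.card_le_one.1 h3 _ (Finset.mem_image_of_mem _ (Finset.mem_univ i)) _
      (Finset.mem_image_of_mem _ (Finset.mem_univ j))
  have h5 : ∀ i : Fin n, y (some i) = 0 := by
    intro i
    have h6 : ∑ j : Fin n, y (some j) = n * y (some i) := by
      rw [Finset.sum_congr rfl (fun j _ => h4 j i)]
      simp
    rw [h6] at hs
    rcases mul_eq_zero.1 hs with h7 | h7
    · exact absurd (Nat.cast_eq_zero.1 h7) (by omega)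
    · exact h7
  funext k
  cases k with
  | some i => exact h5 i
  | none =>
    have h6 := h ⟨0, hn⟩
    rw [h5, fam_zero] at h6
    exact h6

/-- polar decomposition of the parameters -/
theorem polar {n : ℕ} (x : PE n) (hx : x ≠ 0) : ∃ s : ℝ, 0 < s ∧ ∃ y : PE n, ‖y‖ = 1 ∧
    x = sc s y := by
  set r : ℝ := ‖fun i : Fin n => x (some i)‖ with hr
  set t : ℝ := ‖x none‖ ^ (((n + 1 : ℕ) : ℝ)⁻¹) with ht
  have htn : t ^ (n + 1) = ‖x none‖ := Real.rpow_inv_natCast_pow (norm_nonneg _) (by omega)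
  have hr0 : 0 ≤ r := norm_nonneg _
  have ht0 : 0 ≤ t := by positivity
  have hri : ∀ i, ‖x (some i)‖ ≤ r := fun i => norm_le_pi_norm (fun i : Fin n => x (some i)) i
  set s : ℝ := max r t with hs
  have hs0 : 0 < s := by
    rcases (le_max_of_le_left hr0 : 0 ≤ max r t).eq_or_lt with h | h
    · exfalso
      apply hx
      have h1 : r = 0 := le_antisymm (by rw [h]; exact le_max_left _ _) hr0
      have h2 : t = 0 := le_antisymm (by rw [h]; exact le_max_right _ _) ht0
      funext k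
      cases k with
      | some i =>
        have := hri i
        rw [h1] at this
        exact norm_le_zero_iff.1 this
      | none =>
        rw [h2, zero_pow (by omega)] at htn
        exact norm_eq_zero.1 htn.symm
    · exact h
  have hsc : (s : ℂ) ≠ 0 := by exact_mod_cast hs0.ne'
  refine ⟨s, hs0, sc s⁻¹ x, ?_, ?_⟩
  · have hle : ‖sc s⁻¹ x‖ ≤ 1 := by
      rw [pi_norm_le_iff_of_nonneg zero_le_one]
      intro k
      cases k with
      | some i =>
        show ‖((s⁻¹ : ℝ) : ℂ) * x (some i)‖ ≤ 1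
        rw [norm_mul, Complex.norm_real, Real.norm_of_nonneg (by positivity), inv_mul_le_one₀ hs0]
        exact (hri i).trans (le_max_left _ _)
      | none =>
        show ‖((s⁻¹ : ℝ) : ℂ) ^ (n + 1) * x none‖ ≤ 1
        rw [norm_mul, norm_pow, Complex.norm_real, Real.norm_of_nonneg (by positivity), inv_pow,
          inv_mul_le_one₀ (by positivity), ← htn]
        exact pow_le_pow_left₀ ht0 (le_max_right _ _) _
    apply le_antisymm hle
    rcases le_total t r with h | h
    · have hsr : s = r := max_eq_left h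
      have h1 : r * s⁻¹ ≤ ‖sc s⁻¹ x‖ := by
        rw [← le_div_iff₀ (by positivity)]
        rw [hr]
        rw [pi_norm_le_iff_of_nonneg (by positivity)]
        intro i
        rw [le_div_iff₀ (by positivity)]
        have h2 := norm_le_pi_norm (sc s⁻¹ x) (some i)
        have h3 : ‖sc s⁻¹ x (some i)‖ = s⁻¹ * ‖x (some i)‖ := by
          show ‖((s⁻¹ : ℝ) : ℂ) * x (some i)‖ = _
          rw [norm_mul, Complex.norm_real, Real.norm_of_nonneg (by positivity)]
        rw [h3] at h2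
        linarith
      rw [hsr, mul_inv_cancel₀ (by rw [← hsr]; exact hs0.ne')] at h1
      rw [hsr]
      exact h1
    · have hsr : s = t := max_eq_right h
      have h2 := norm_le_pi_norm (sc s⁻¹ x) none
      have h3 : ‖sc s⁻¹ x none‖ = 1 := by
        show ‖((s⁻¹ : ℝ) : ℂ) ^ (n + 1) * x none‖ = _
        rw [norm_mul, norm_pow, Complex.norm_real, Real.norm_of_nonneg (by positivity), ← htn, ← hsr,
          inv_pow, inv_mul_cancel₀ (by positivity)]
      rw [h3] at h2
      exact h2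
  · funext k
    cases k with
    | some i =>
      show x (some i) = (s : ℂ) * (((s⁻¹ : ℝ) : ℂ) * x (some i))
      push_cast
      field_simp
    | none =>
      show x none = (s : ℂ) ^ (n + 1) * (((s⁻¹ : ℝ) : ℂ) ^ (n + 1) * x none)
      push_cast
      rw [← mul_assoc, ← mul_pow, mul_inv_cancel₀ hsc, one_pow, one_mul]

theorem cont_fx (a : ℂ) (n : ℕ) : Continuous (fun q : PE n × ℂ => fx a n q.1 q.2) :=
  (contDiff_fam a n).continuous

/-- lower bound for a critical value -/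
theorem exists_c1 {a : ℂ} (ha : a ≠ 0) {n : ℕ} (hn : 1 ≤ n) : ∃ c1 : ℝ, 0 < c1 ∧ ∀ y : PE n,
    ‖y‖ = 1 → ∑ i : Fin n, y (some i) = 0 → ∃ i : Fin n, c1 ≤ ‖fx a n y (y (some i))‖ := by
  set Y : Set (PE n) := sphere 0 1 ∩ {y | ∑ i : Fin n, y (some i) = 0} with hY
  have hYc : IsCompact Y := by
    refine (isCompact_sphere (0 : PE n) 1).inter_right ?_
    exact isClosed_eq (by fun_prop) continuous_const
  set g : PE n → ℝ := fun y => ∑ i : Fin n, ‖fx a n y (y (some i))‖ with hg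
  have hgc : Continuous g := by
    refine continuous_finsetSum _ fun i _ => ?_
    refine Continuous.norm ?_
    exact (cont_fx a n).comp (continuous_id.prodMk (continuous_apply (some i)))
  have hgp : ∀ y ∈ Y, 0 < g y := by
    intro y hy
    have h0 : 0 ≤ g y := Finset.sum_nonneg fun i _ => norm_nonneg _
    rcases h0.eq_or_lt with h | h
    · exfalso
      have h1 : ∀ i : Fin n, fx a n y (y (some i)) = 0 := by
        intro i
        have h2 := (Finset.sum_eq_zero_iff_of_nonneg (fun i _ => norm_nonneg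
          (fx a n y (y (some i))))).1 h.symm i (Finset.mem_univ i)
        exact norm_eq_zero.1 h2
      have h3 := crit_zero ha hn y hy.2 h1
      have h4 := hy.1
      rw [h3, mem_sphere, dist_self] at h4
      norm_num at h4
    · exact h
  obtain ⟨c, hc, hcY⟩ : ∃ c : ℝ, 0 < c ∧ ∀ y ∈ Y, c ≤ g y := by
    rcases Y.eq_empty_or_nonempty with h | h
    · exact ⟨1, one_pos, fun y hy => by rw [h] at hy; exact absurd hy (notMem_empty y)⟩
    · obtain ⟨y0, hy0, hmin⟩ := hYc.exists_isMinOn h hgc.continuousOn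
      exact ⟨g y0, hgp y0 hy0, fun y hy => hmin hy⟩
  have hnp : (0 : ℝ) < n := by exact_mod_cast hn
  refine ⟨c / n, by positivity, fun y hy1 hy2 => ?_⟩
  by_contra hcon
  push Not at hcon
  have h1 : g y < ∑ _i : Fin n, c / n := by
    haveI : Nonempty (Fin n) := ⟨⟨0, hn⟩⟩
    exact Finset.sum_lt_sum_of_nonempty Finset.univ_nonempty fun i _ => hcon i
  rw [Finset.sum_const, Finset.card_univ, Fintype.card_fin, nsmul_eq_mul,
    mul_div_cancel₀ _ hnp.ne'] at h1
  have h2 := hcY y ⟨by rw [mem_sphere_zero_iff_norm]; exact hy1, hy2⟩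
  linarith

/-- lower bound far away -/
theorem exists_C1 {a : ℂ} (ha : a ≠ 0) (n : ℕ) : ∃ C1 : ℝ, 1 ≤ C1 ∧ ∀ y : PE n, ‖y‖ ≤ 1 →
    ∀ u : ℂ, C1 ≤ ‖u‖ → ‖a‖ / 2 * ‖u‖ ^ (n + 1) ≤ ‖fx a n y u‖ := by
  obtain ⟨A, hA1, hA⟩ := exists_coeff_bound a n 1
  have hap : 0 < ‖a‖ := norm_pos_iff.2 ha
  refine ⟨max 1 (2 * ((n + 1 : ℕ) * A / ‖a‖)), le_max_left _ _, fun y hy u hu => ?_⟩
  have hu1 : 1 ≤ ‖u‖ := (le_max_left _ _).trans hu
  have hu2 : 2 * ((n + 1 : ℕ) * A / ‖a‖) ≤ ‖u‖ := (le_max_right _ _).trans hu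
  have hup : 0 < ‖u‖ := by linarith
  have h1 := lead_bound ha (by linarith : 0 ≤ A) (natDegree_fam_le a n y) (coeff_fam_top a n y)
    (hA y hy) hu1
  have h2 : ((n + 1 : ℕ) * A / ‖a‖) / ‖u‖ ≤ 1 / 2 := by
    rw [div_le_iff₀ hup]
    linarith
  have h3 : ‖(fam a n y).eval u / (a * u ^ (n + 1)) - 1‖ ≤ 1 / 2 := h1.trans h2
  have h4 : 1 / 2 ≤ ‖(fam a n y).eval u / (a * u ^ (n + 1))‖ := by
    have h5 := norm_sub_norm_le (1 : ℂ) ((fam a n y).eval u / (a * u ^ (n + 1)))
    rw [norm_one, norm_sub_rev] at h5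
    linarith
  rw [norm_div, norm_mul, norm_pow, le_div_iff₀ (by positivity)] at h4
  unfold fx
  linarith

theorem fx_far {a : ℂ} {n : ℕ} {C1 : ℝ} (h : ∀ y : PE n, ‖y‖ ≤ 1 →
    ∀ u : ℂ, C1 ≤ ‖u‖ → ‖a‖ / 2 * ‖u‖ ^ (n + 1) ≤ ‖fx a n y u‖) {s : ℝ} (hs : 0 < s) {y : PE n}
    (hy : ‖y‖ ≤ 1) {u : ℂ} (hu : C1 * s ≤ ‖u‖) :
    ‖a‖ / 2 * ‖u‖ ^ (n + 1) ≤ ‖fx a n (sc s y) u‖ := by
  have hsc : (s : ℂ) ≠ 0 := by exact_mod_cast hs.ne'
  have e : u = (s : ℂ) * (u / s) := by field_simp
  have hn : ‖u / (s : ℂ)‖ = ‖u‖ / s := by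
    rw [norm_div, Complex.norm_real, Real.norm_of_nonneg hs.le]
  have h1 := h y hy (u / s) (by rw [hn, le_div_iff₀ hs]; exact hu)
  rw [e, fx_sc, ← e, norm_mul, norm_pow, Complex.norm_real, Real.norm_of_nonneg hs.le]
  calc ‖a‖ / 2 * ‖u‖ ^ (n + 1) = s ^ (n + 1) * (‖a‖ / 2 * ‖u / (s : ℂ)‖ ^ (n + 1)) := by
        rw [hn, div_pow]
        field_simp
    _ ≤ _ := by gcongr

theorem pow_growth (K k : ℕ) (hk : K + 7 ≤ k) : (k + 1) ^ 2 + K + 1 ≤ 2 ^ k := by
  have h1 : ∀ j : ℕ, 2 * (j + 8) ^ 2 ≤ 2 ^ (j + 7) := by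
    intro j
    induction j with
    | zero => norm_num
    | succ j ih =>
      have : 2 ^ (j + 1 + 7) = 2 * 2 ^ (j + 7) := by ring
      rw [this]
      have h2 : (j + 1 + 8) ^ 2 ≤ 2 * (j + 8) ^ 2 := by nlinarith [Nat.zero_le (j * j)]
      omega
  obtain ⟨j, rfl⟩ := Nat.exists_eq_add_of_le (show 7 ≤ k by omega)
  have h2 := h1 j
  have h3 : K ≤ j := by omega
  rw [show 7 + j = j + 7 by ring]
  nlinarith

theorem main : Pool.Agent.W820.BM.S_AP1 := by
  intro a n c ha hn hc
  obtain ⟨c1, hc1, hc1y⟩ := exists_c1 ha hn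
  obtain ⟨C1, hC1, hC1y⟩ := exists_C1 ha n
  have hα : 0 < ‖a‖ := norm_pos_iff.2 ha
  -- upper bounds on compact sets
  have hup : ∀ r : ℝ, ∃ M : ℝ, 0 ≤ M ∧ ∀ y : PE n, ‖y‖ ≤ r → ∀ u : ℂ, ‖u‖ ≤ c →
      ‖fx a n y u‖ ≤ M := by
    intro r
    have hK : IsCompact (closedBall (0 : PE n) r ×ˢ closedBall (0 : ℂ) c) :=
      (isCompact_closedBall _ _).prod (isCompact_closedBall _ _)
    obtain ⟨M, hM⟩ := hK.exists_bound_of_continuousOn (cont_fx a n).continuousOn
    refine ⟨max M 0, le_max_right _ _, fun y hy u hu => ?_⟩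
    exact (hM (y, u) ⟨by rwa [mem_closedBall_zero_iff], by rwa [mem_closedBall_zero_iff]⟩).trans
      (le_max_left _ _)
  obtain ⟨C4, hC40, hC4⟩ := hup 1
  set C3 : ℝ := 2 * (c + 1 + C4) / c1 with hC3
  have hC30 : 0 ≤ C3 := by positivity
  -- the threshold
  set E : ℝ := 1 + 4 * Real.exp 1 / ‖a‖ + 4 * c / ‖a‖ with hE
  have hE1 : 1 ≤ E := by
    have h1 : 0 ≤ 4 * Real.exp 1 / ‖a‖ := by positivity
    have h2 : 0 ≤ 4 * c / ‖a‖ := by positivity
    linarith
  have hE2 : Real.exp 1 ≤ ‖a‖ / 4 * E := by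
    rw [hE, mul_add, mul_add]
    have h1 : ‖a‖ / 4 * (4 * Real.exp 1 / ‖a‖) = Real.exp 1 := by field_simp
    have h2 : 0 ≤ ‖a‖ / 4 * (4 * c / ‖a‖) := by positivity
    rw [h1]
    linarith
  have hE3 : c ≤ ‖a‖ / 4 * E := by
    rw [hE, mul_add, mul_add]
    have h1 : ‖a‖ / 4 * (4 * c / ‖a‖) = c := by field_simp
    have h2 : 0 ≤ ‖a‖ / 4 * (4 * Real.exp 1 / ‖a‖) := by positivity
    rw [h1]
    linarith
  set s0 : ℝ := 1 + 2 * c / c1 + 2 * C1 / c1 + 2 * E / c1 with hs0
  have hs01 : 1 ≤ s0 := by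
    have h1 : 0 ≤ 2 * c / c1 := by positivity
    have h2 : 0 ≤ 2 * C1 / c1 := by positivity
    have h3 : 0 ≤ 2 * E / c1 := by positivity
    linarith
  obtain ⟨C6, hC60, hC6⟩ := hup (s0 ^ (n + 1))
  set K : ℕ := ⌈C3 + c + 1⌉₊ with hK
  refine ⟨1 + c + s0 ^ (n + 1) + C6, K + 8, by positivity, fun x hx hxB => ?_⟩
  have hnp : (1 : ℝ) ≤ n := by exact_mod_cast hn
  have hn0 : (n : ℂ) ≠ 0 := by
    have : n ≠ 0 := by omega
    exact_mod_cast this
  set β : ℂ := (∑ i : Fin n, x (some i)) / n with hβ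
  have hβc : ‖β‖ ≤ c := by
    rw [hβ, norm_div, Complex.norm_natCast, div_le_iff₀ (by linarith)]
    calc ‖∑ i : Fin n, x (some i)‖ ≤ c := hx
      _ = c * 1 := (mul_one c).symm
      _ ≤ c * n := by gcongr
  set x' : PE n := tl a β x with hx'
  have hx'i : ∀ i, x (some i) = β + x' (some i) := by
    intro i
    show x (some i) = β + (x (some i) - β)
    ring
  have hx'n : x none = fx a n x' (-β) := by
    have := fx_tl a n β x 0
    rw [fam_zero, zero_sub] at this
    exact this.symm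
  have hsum : ∑ i : Fin n, x' (some i) = 0 := by
    show ∑ i : Fin n, (x (some i) - β) = 0
    rw [Finset.sum_sub_distrib, Finset.sum_const, Finset.card_univ, Fintype.card_fin, nsmul_eq_mul,
      hβ]
    field_simp
    ring
  -- norm of x from x'
  have hnx : ∀ D : ℝ, 0 ≤ D → (∀ i, ‖x' (some i)‖ ≤ D) → ∀ M : ℝ, ‖fx a n x' (-β)‖ ≤ M →
      ‖x‖ ≤ c + D + M := by
    intro D hD h1 M h2
    have hM : 0 ≤ M := (norm_nonneg _).trans h2
    rw [pi_norm_le_iff_of_nonneg (by linarith)]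
    intro k
    cases k with
    | some i =>
      rw [hx'i i]
      refine (norm_add_le _ _).trans ?_
      have := h1 i
      linarith
    | none =>
      rw [hx'n]
      linarith
  have hx'0 : x' ≠ 0 := by
    intro h0
    have h1 := hnx 0 le_rfl (fun i => by rw [h0]; simp) C4
      (hC4 x' (by rw [h0, norm_zero]; exact zero_le_one) (-β) (by rw [norm_neg]; exact hβc))
    have h2 : ‖fx a n x' (-β)‖ ≤ C6 := hC6 x' (by rw [h0, norm_zero]; positivity) (-β)
      (by rw [norm_neg]; exact hβc)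
    have h3 := hnx 0 le_rfl (fun i => by rw [h0]; simp) C6 h2
    have h4 : 0 ≤ s0 ^ (n + 1) := by positivity
    linarith
  obtain ⟨s, hs, y, hy, hxy⟩ := polar x' hx'0
  have hyi : ∀ k, ‖y k‖ ≤ 1 := fun k => by rw [← hy]; exact norm_le_pi_norm y k
  have hx'i2 : ∀ i, ‖x' (some i)‖ ≤ s := by
    intro i
    rw [hxy]
    show ‖(s : ℂ) * y (some i)‖ ≤ s
    rw [norm_mul, Complex.norm_real, Real.norm_of_nonneg hs.le]
    calc s * ‖y (some i)‖ ≤ s * 1 := by gcongr; exact hyi _
      _ = s := mul_one s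
  have hs0s : s0 ≤ s := by
    by_contra hlt
    push Not at hlt
    have hpow : s ≤ s0 ^ (n + 1) := by
      calc s ≤ s0 := hlt.le
        _ = s0 ^ 1 := (pow_one s0).symm
        _ ≤ s0 ^ (n + 1) := pow_le_pow_right₀ hs01 (by omega)
    have h1 : ‖x'‖ ≤ s0 ^ (n + 1) := by
      rw [pi_norm_le_iff_of_nonneg (by positivity)]
      intro k
      cases k with
      | some i => exact (hx'i2 i).trans hpow
      | none =>
        rw [hxy]
        show ‖(s : ℂ) ^ (n + 1) * y none‖ ≤ _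
        rw [norm_mul, norm_pow, Complex.norm_real, Real.norm_of_nonneg hs.le]
        calc s ^ (n + 1) * ‖y none‖ ≤ s0 ^ (n + 1) * 1 := by
              gcongr
              exact hyi _
          _ = _ := mul_one _
    have h2 := hnx _ (by positivity) (fun i => (hx'i2 i).trans hpow) C6
      (hC6 x' h1 (-β) (by rw [norm_neg]; exact hβc))
    linarith
  have hs1 : 1 ≤ s := hs01.trans hs0s
  have hsp : s ≤ s ^ (n + 1) := by
    calc s = s ^ 1 := (pow_one s).symm
      _ ≤ s ^ (n + 1) := pow_le_pow_right₀ hs1 (by omega)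
  have hsp2 : s * s ≤ s ^ (n + 1) := by
    calc s * s = s ^ 2 := (sq s).symm
      _ ≤ s ^ (n + 1) := pow_le_pow_right₀ hs1 (by omega)
  have hA1 : 2 * c / c1 ≤ s := by
    have h1 : 0 ≤ 2 * c / c1 := by positivity
    have h2 : 0 ≤ 2 * C1 / c1 := by positivity
    have h3 : 0 ≤ 2 * E / c1 := by positivity
    linarith
  have hA2 : 2 * C1 / c1 ≤ s := by
    have h1 : 0 ≤ 2 * c / c1 := by positivity
    have h2 : 0 ≤ 2 * C1 / c1 := by positivity
    have h3 : 0 ≤ 2 * E / c1 := by positivity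
    linarith
  have hA3 : 2 * E / c1 ≤ s := by
    have h1 : 0 ≤ 2 * c / c1 := by positivity
    have h2 : 0 ≤ 2 * C1 / c1 := by positivity
    have h3 : 0 ≤ 2 * E / c1 := by positivity
    linarith
  rw [div_le_iff₀ hc1] at hA1 hA2 hA3
  -- the norm of x
  have hxs : ‖x‖ ≤ (c + 1 + C4) * s ^ (n + 1) := by
    have h1 : ‖fx a n x' (-β)‖ ≤ C4 * s ^ (n + 1) := by
      have hsc : (s : ℂ) ≠ 0 := by exact_mod_cast hs.ne'
      have e : -β = (s : ℂ) * (-β / s) := by field_simp
      rw [hxy, e, fx_sc, norm_mul, norm_pow, Complex.norm_real, Real.norm_of_nonneg hs.le, mul_comm]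
      gcongr
      apply hC4 y hy.le
      rw [norm_div, norm_neg, Complex.norm_real, Real.norm_of_nonneg hs.le, div_le_iff₀ hs]
      calc ‖β‖ ≤ c := hβc
        _ = c * 1 := (mul_one c).symm
        _ ≤ c * s := by gcongr
    have h2 := hnx s hs.le hx'i2 _ h1
    have h3 : c ≤ c * s ^ (n + 1) := by
      calc c = c * 1 := (mul_one c).symm
        _ ≤ c * s ^ (n + 1) := by gcongr; linarith
    linarith
  -- the critical value
  have hysum : ∑ i : Fin n, y (some i) = 0 := by
    have hsc : (s : ℂ) ≠ 0 := by exact_mod_cast hs.ne'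
    have h1 : (s : ℂ) * ∑ i : Fin n, y (some i) = 0 := by
      rw [Finset.mul_sum]
      rw [hxy] at hsum
      exact hsum
    exact (mul_eq_zero.1 h1).resolve_left hsc
  obtain ⟨i, hi⟩ := hc1y y hy hysum
  refine ⟨i, ?_⟩
  set u : ℕ → ℂ := fun m => (fx a n x)^[m] (x (some i)) - β with hu
  have hustep : ∀ m, u (m + 1) = fx a n x' (u m) - β := by
    intro m
    simp only [hu]
    rw [Function.iterate_succ_apply', fx_tl]
  have hu0 : u 0 = x' (some i) := by
    simp only [hu, Function.iterate_zero, id]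
    rw [hx'i i]
    ring
  have hu1 : c1 / 2 * s ^ (n + 1) ≤ ‖u 1‖ := by
    rw [hustep 0, hu0]
    have h1 : c1 * s ^ (n + 1) ≤ ‖fx a n x' (x' (some i))‖ := by
      have e : x' (some i) = (s : ℂ) * y (some i) := by rw [hxy]; rfl
      rw [e, hxy, fx_sc, norm_mul, norm_pow, Complex.norm_real, Real.norm_of_nonneg hs.le, mul_comm]
      gcongr
    have h2 := norm_sub_norm_le (fx a n x' (x' (some i))) β
    have h3 : 2 * c ≤ c1 * s ^ (n + 1) := by
      calc 2 * c ≤ s * c1 := hA1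
        _ ≤ s ^ (n + 1) * c1 := by gcongr
        _ = _ := mul_comm _ _
    linarith
  have hu1s : C1 * s ≤ ‖u 1‖ := by
    have h3 : 2 * C1 * s ≤ c1 * s ^ (n + 1) := by
      calc 2 * C1 * s ≤ s * c1 * s := by gcongr
        _ = s * s * c1 := by ring
        _ ≤ s ^ (n + 1) * c1 := by gcongr
        _ = _ := mul_comm _ _
    linarith
  have hu1E : E ≤ ‖u 1‖ := by
    have h3 : 2 * E ≤ c1 * s ^ (n + 1) := by
      calc 2 * E ≤ s * c1 := hA3
        _ ≤ s ^ (n + 1) * c1 := by gcongr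
        _ = _ := mul_comm _ _
    linarith
  set U : ℝ := ‖u 1‖ with hU
  have hU1 : 1 ≤ U := hE1.trans hu1E
  set q : ℝ := ‖a‖ / 4 * U with hq
  have hqe : Real.exp 1 ≤ q := hE2.trans (by rw [hq]; gcongr)
  have hq1 : 1 ≤ q := by
    have := Real.add_one_le_exp (1 : ℝ)
    linarith
  have hind : ∀ k : ℕ, q ^ (2 ^ k) ≤ ‖a‖ / 4 * ‖u (k + 1)‖ := by
    intro k
    induction k with
    | zero => simp [hq, hU]
    | succ k ih =>
      have h1 : q ≤ ‖a‖ / 4 * ‖u (k + 1)‖ := by
        refine le_trans ?_ ih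
        calc q = q ^ 1 := (pow_one q).symm
          _ ≤ q ^ (2 ^ k) := pow_le_pow_right₀ hq1 Nat.one_le_two_pow
      have h2 : U ≤ ‖u (k + 1)‖ := by
        rw [hq] at h1
        exact le_of_mul_le_mul_left h1 (by positivity)
      have h3 : C1 * s ≤ ‖u (k + 1)‖ := hu1s.trans h2
      have h4 : ‖a‖ / 2 * ‖u (k + 1)‖ ^ (n + 1) ≤ ‖fx a n x' (u (k + 1))‖ := by
        rw [hxy]
        exact fx_far hC1y hs hy.le h3
      have h5 : 1 ≤ ‖u (k + 1)‖ := hU1.trans h2
      have h6 : ‖u (k + 1)‖ ^ 2 ≤ ‖u (k + 1)‖ ^ (n + 1) := pow_le_pow_right₀ h5 (by omega)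
      have h7 := norm_sub_norm_le (fx a n x' (u (k + 1))) β
      rw [← hustep] at h7
      have h8 : c ≤ ‖a‖ / 4 * ‖u (k + 1)‖ ^ 2 := by
        have h9 : ‖u (k + 1)‖ ≤ ‖u (k + 1)‖ ^ 2 := by nlinarith
        calc c ≤ ‖a‖ / 4 * E := hE3
          _ ≤ ‖a‖ / 4 * ‖u (k + 1)‖ ^ 2 := by
              gcongr
              exact (hu1E.trans h2).trans h9
      have h10 : ‖a‖ / 4 * ‖u (k + 1)‖ ^ 2 ≤ ‖u (k + 1 + 1)‖ := by
        have h11 : ‖a‖ / 2 * ‖u (k + 1)‖ ^ 2 ≤ ‖a‖ / 2 * ‖u (k + 1)‖ ^ (n + 1) := by gcongr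
        linarith
      calc q ^ (2 ^ (k + 1)) = (q ^ (2 ^ k)) ^ 2 := by rw [← pow_mul, pow_succ]
        _ ≤ (‖a‖ / 4 * ‖u (k + 1)‖) ^ 2 := by gcongr
        _ = ‖a‖ / 4 * (‖a‖ / 4 * ‖u (k + 1)‖ ^ 2) := by ring
        _ ≤ ‖a‖ / 4 * ‖u (k + 1 + 1)‖ := by gcongr
  intro m hm
  obtain ⟨k, rfl⟩ := Nat.exists_eq_add_of_le (show 1 ≤ m by omega)
  rw [add_comm 1 k]
  have hkg := pow_growth K k (by omega)
  have h1 : U * Real.exp (((k + 1 : ℕ) : ℝ) ^ 2 + K) ≤ ‖u (k + 1)‖ := by
    have h2 := hind k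
    have h3 : q ^ (2 ^ k) = q * q ^ (2 ^ k - 1) := by
      rw [← pow_succ']
      congr 1
      have := Nat.one_le_two_pow (n := k)
      omega
    rw [h3, hq, mul_assoc] at h2
    have h4 : U * (‖a‖ / 4 * U) ^ (2 ^ k - 1) ≤ ‖u (k + 1)‖ :=
      le_of_mul_le_mul_left h2 (by positivity)
    refine le_trans ?_ h4
    have h5 : Real.exp (((k + 1 : ℕ) : ℝ) ^ 2 + K) ≤ (Real.exp 1) ^ (2 ^ k - 1) := by
      rw [← Real.exp_nat_mul]
      apply Real.exp_le_exp.2
      have h6 : (k + 1) ^ 2 + K ≤ 2 ^ k - 1 := by omega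
      have h7 : (((k + 1) ^ 2 + K : ℕ) : ℝ) ≤ ((2 ^ k - 1 : ℕ) : ℝ) := by exact_mod_cast h6
      push_cast at h7 ⊢
      linarith
    calc U * Real.exp (((k + 1 : ℕ) : ℝ) ^ 2 + K) ≤ U * (Real.exp 1) ^ (2 ^ k - 1) := by gcongr
      _ ≤ U * (‖a‖ / 4 * U) ^ (2 ^ k - 1) := by gcongr
  have h2 : C3 + c + 2 ≤ Real.exp (K : ℝ) := by
    have h3 := Nat.le_ceil (C3 + c + 1)
    have h4 := Real.add_one_le_exp (K : ℝ)
    rw [← hK] at h3
    linarith
  rw [Real.exp_add] at h1
  set G : ℝ := Real.exp (((k + 1 : ℕ) : ℝ) ^ 2) with hG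
  have hG1 : 1 ≤ G := Real.one_le_exp (by positivity)
  have h3 : ‖x‖ ≤ C3 * U := by
    have h4 : s ^ (n + 1) ≤ 2 / c1 * U := by
      rw [div_mul_eq_mul_div, le_div_iff₀ hc1]
      linarith
    calc ‖x‖ ≤ (c + 1 + C4) * s ^ (n + 1) := hxs
      _ ≤ (c + 1 + C4) * (2 / c1 * U) := by gcongr
      _ = C3 * U := by rw [hC3]; ring
  have h4 : U * (G * (C3 + c + 2)) ≤ ‖u (k + 1)‖ := le_trans (by gcongr) h1
  have h5 : ‖u (k + 1)‖ ≤ ‖(fx a n x)^[k + 1] (x (some i))‖ + c := by
    simp only [hu]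
    exact (norm_sub_le _ _).trans (by linarith)
  have h6 : C3 * U + c + 2 * G ≤ U * (G * (C3 + c + 2)) := by
    have h7 : 1 * 1 ≤ U * G := mul_le_mul hU1 hG1 zero_le_one (by linarith)
    have h8 : C3 * U ≤ C3 * (U * G) := by
      have : U * 1 ≤ U * G := by gcongr
      gcongr
      linarith
    have h9 : c ≤ c * (U * G) := by nlinarith
    have h10 : 2 * G ≤ 2 * (U * G) := by
      have : 1 * G ≤ U * G := by gcongr
      linarith
    calc C3 * U + c + 2 * G ≤ C3 * (U * G) + c * (U * G) + 2 * (U * G) := by linarith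
      _ = U * (G * (C3 + c + 2)) := by ring
  linarith

end Pool.Agent.W806.BM
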